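import Mathlib

/-!
Letter systems in the groups `Fin d → ZMod 3` and their products and unions.
-/

namespace Pool.Agent.Helper49.CapSet

/-- Three elements with zero sum are equal. -/
def Cap {d : ℕ} (A : Finset (Fin d → ZMod 3)) : Prop :=
  ∀ x ∈ A, ∀ y ∈ A, ∀ z ∈ A, x + y + z = 0 → x = y ∧ y = z

/-- No zero sum with one summand from each set. -/
def NoSum {d : ℕ} (A B C : Finset (Fin d → ZMod 3)) : Prop :=
  ∀ x ∈ A, ∀ y ∈ B, ∀ z ∈ C, x + y + z ≠ 0

/-- A letter system in dimension `d`: caps indexed by letters, with a sound table of triples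
without zero sums, and with prescribed sizes. -/
def LS (J : Type) (K : J → J → J → Bool) (d : ℕ) (sz : J → ℕ) : Prop :=
  ∃ A : J → Finset (Fin d → ZMod 3), (∀ a, Cap (A a)) ∧
    (∀ a b c, K a b c = true → NoSum (A a) (A b) (A c)) ∧ ∀ a, (A a).card = sz a

theorem LS.comap {J I : Type} {K : J → J → J → Bool} {d : ℕ} {sz : J → ℕ} (h : LS J K d sz)
    (f : I → J) : LS I (fun a b c => K (f a) (f b) (f c)) d (fun a => sz (f a)) := by
  obtain ⟨A, h1, h2, h3⟩ := h
  exact ⟨fun a => A (f a), fun a => h1 _, fun a b c => h2 _ _ _, fun a => h3 _⟩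

theorem LS.congr {J : Type} {K : J → J → J → Bool} {d d' : ℕ} {sz sz' : J → ℕ}
    (h : LS J K d sz) (hd : d = d') (hs : ∀ a, sz a = sz' a) : LS J K d' sz' := by
  subst hd
  obtain ⟨A, h1, h2, h3⟩ := h
  exact ⟨A, h1, h2, fun a => (h3 a).trans (hs a)⟩

theorem append_add {d d' : ℕ} (x y : Fin d → ZMod 3) (x' y' : Fin d' → ZMod 3) :
    Fin.append x x' + Fin.append y y' = Fin.append (x + y) (x' + y') := by
  ext i
  refine Fin.addCases (fun i => ?_) (fun i => ?_) i <;> simp

theorem append_eq_zero {d d' : ℕ} {x : Fin d → ZMod 3} {x' : Fin d' → ZMod 3}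
    (h : Fin.append x x' = 0) : x = 0 ∧ x' = 0 := by
  constructor
  · ext i
    have := congrFun h (Fin.castAdd d' i)
    simpa using this
  · ext i
    have := congrFun h (Fin.natAdd d i)
    simpa using this

theorem append_inj {d d' : ℕ} : Function.Injective
    (fun p : (Fin d → ZMod 3) × (Fin d' → ZMod 3) => Fin.append p.1 p.2) := by
  rintro ⟨x, x'⟩ ⟨y, y'⟩ h
  have h : Fin.append x x' = Fin.append y y' := h
  refine Prod.ext ?_ ?_
  · ext i
    have := congrFun h (Fin.castAdd d' i)
    simpa using this
  · ext i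
    have := congrFun h (Fin.natAdd d i)
    simpa using this

theorem LS.prod {J : Type} {K K' : J → J → J → Bool} {d d' : ℕ} {sz sz' : J → ℕ}
    (h : LS J K d sz) (h' : LS J K' d' sz') :
    LS J (fun a b c => K a b c || K' a b c) (d + d') (fun a => sz a * sz' a) := by
  obtain ⟨A, h1, h2, h3⟩ := h
  obtain ⟨A', h1', h2', h3'⟩ := h'
  refine ⟨fun a => (A a ×ˢ A' a).map ⟨_, append_inj⟩, ?_, ?_, ?_⟩
  · intro a x hx y hy z hz hs
    simp only [Finset.mem_map, Finset.mem_product, Function.Embedding.coeFn_mk, Prod.exists] at hx hy hz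
    obtain ⟨x1, x2, ⟨hx1, hx2⟩, rfl⟩ := hx
    obtain ⟨y1, y2, ⟨hy1, hy2⟩, rfl⟩ := hy
    obtain ⟨z1, z2, ⟨hz1, hz2⟩, rfl⟩ := hz
    rw [append_add, append_add] at hs
    obtain ⟨e1, e2⟩ := append_eq_zero hs
    obtain ⟨f1, f2⟩ := h1 a _ hx1 _ hy1 _ hz1 e1
    obtain ⟨g1, g2⟩ := h1' a _ hx2 _ hy2 _ hz2 e2
    subst f1 f2 g1 g2
    exact ⟨rfl, rfl⟩
  · intro a b c hk x hx y hy z hz hs
    simp only [Finset.mem_map, Finset.mem_product, Function.Embedding.coeFn_mk, Prod.exists] at hx hy hz
    obtain ⟨x1, x2, ⟨hx1, hx2⟩, rfl⟩ := hx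
    obtain ⟨y1, y2, ⟨hy1, hy2⟩, rfl⟩ := hy
    obtain ⟨z1, z2, ⟨hz1, hz2⟩, rfl⟩ := hz
    rw [append_add, append_add] at hs
    obtain ⟨e1, e2⟩ := append_eq_zero hs
    rcases Bool.or_eq_true_iff.1 hk with hk | hk
    · exact h2 a b c hk _ hx1 _ hy1 _ hz1 e1
    · exact h2' a b c hk _ hx2 _ hy2 _ hz2 e2
  · intro a
    rw [Finset.card_map, Finset.card_product, h3, h3']

theorem add3_self {d : ℕ} (x : Fin d → ZMod 3) : x + x + x = 0 := by
  ext i
  have : ∀ t : ZMod 3, t + t + t = 0 := by decide
  exact this (x i)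

theorem LS.union {J I : Type} {K : J → J → J → Bool} {d : ℕ} {sz : J → ℕ} (h : LS J K d sz)
    (K' : I → I → I → Bool) (n : I → ℕ) (F : I → ℕ → J)
    (h1 : ∀ a, ∀ i < n a, ∀ j < n a, ∀ k < n a, ¬ (i = j ∧ j = k) → K (F a i) (F a j) (F a k) = true)
    (h2 : ∀ a b c, K' a b c = true → ∀ i < n a, ∀ j < n b, ∀ k < n c,
      K (F a i) (F b j) (F c k) = true) :
    LS I K' d (fun a => ∑ i ∈ Finset.range (n a), sz (F a i)) := by
  obtain ⟨A, g1, g2, g3⟩ := h
  refine ⟨fun a => (Finset.range (n a)).biUnion (fun i => A (F a i)), ?_, ?_, ?_⟩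
  · intro a x hx y hy z hz hs
    simp only [Finset.mem_biUnion, Finset.mem_range] at hx hy hz
    obtain ⟨i, hi, hx⟩ := hx
    obtain ⟨j, hj, hy⟩ := hy
    obtain ⟨k, hk, hz⟩ := hz
    by_cases he : i = j ∧ j = k
    · obtain ⟨rfl, rfl⟩ := he
      exact g1 _ _ hx _ hy _ hz hs
    · exact absurd hs (g2 _ _ _ (h1 a i hi j hj k hk he) _ hx _ hy _ hz)
  · intro a b c hk x hx y hy z hz
    simp only [Finset.mem_biUnion, Finset.mem_range] at hx hy hz
    obtain ⟨i, hi, hx⟩ := hx
    obtain ⟨j, hj, hy⟩ := hy
    obtain ⟨k, hk', hz⟩ := hz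
    exact g2 _ _ _ (h2 a b c hk i hi j hj k hk') _ hx _ hy _ hz
  · intro a
    rw [Finset.card_biUnion]
    · exact Finset.sum_congr rfl fun i _ => g3 _
    · intro i hi j hj hij
      change Disjoint (A (F a i)) (A (F a j))
      rw [Finset.disjoint_left]
      intro x hx hx'
      exact g2 _ _ _ (h1 a i (Finset.mem_range.1 hi) i (Finset.mem_range.1 hi) j
        (Finset.mem_range.1 hj) (fun h => hij h.2)) _ hx _ hx _ hx' (add3_self x)

/-- The data of one coordinate. -/
structure Coord where
  K : ℕ → ℕ → ℕ → Bool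
  d : ℕ
  sz : ℕ → ℕ

def Coord.Ok (c : Coord) : Prop := LS ℕ c.K c.d c.sz

/-- The kill table of words. -/
def KW : List Coord → List ℕ → List ℕ → List ℕ → Bool
  | [], _, _, _ => false
  | c :: cs, u, v, w => c.K (u.headD 0) (v.headD 0) (w.headD 0) || KW cs u.tail v.tail w.tail

/-- The size of a word. -/
def SW : List Coord → List ℕ → ℕ
  | [], _ => 1
  | c :: cs, w => c.sz (w.headD 0) * SW cs w.tail

/-- The total dimension. -/
def DW : List Coord → ℕ
  | [] => 0
  | c :: cs => c.d + DW cs

theorem words_LS (cs : List Coord) (h : ∀ c ∈ cs, c.Ok) : LS (List ℕ) (KW cs) (DW cs) (SW cs) := by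
  induction cs with
  | nil =>
    refine ⟨fun _ => {0}, ?_, ?_, ?_⟩
    · intro a x hx y hy z hz _
      have hs : Subsingleton (Fin 0 → ZMod 3) := inferInstance
      exact ⟨hs.elim _ _, hs.elim _ _⟩
    · intro a b c hk
      simp [KW] at hk
    · intro a
      simp [SW]
  | cons c cs ih =>
    have h1 : c.Ok := h c (by simp)
    have h2 := ih (fun c' hc' => h c' (by simp [hc']))
    have h3 := LS.comap h1 (fun w : List ℕ => w.headD 0)
    have h4 := LS.comap h2 (fun w : List ℕ => w.tail)
    exact LS.prod h3 h4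

/-- Bit mask of the entries `c` of a column with `K a b c`. -/
def colMask (K : ℕ → ℕ → ℕ → Bool) (a b : ℕ) : List ℕ → ℕ
  | [] => 0
  | c :: cs => (K a b c).toNat + 2 * colMask K a b cs

theorem testBit_colMask (K : ℕ → ℕ → ℕ → Bool) (a b : ℕ) (cs : List ℕ) (j : ℕ)
    (h : (colMask K a b cs).testBit j = true) : K a b (cs.getD j 0) = true := by
  induction cs generalizing j with
  | nil => simp [colMask] at h
  | cons c cs ih =>
    rw [colMask] at h
    cases j with
    | zero =>
      rw [List.getD_cons_zero]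
      by_contra hc
      rw [Bool.not_eq_true] at hc
      rw [hc] at h
      simp at h
    | succ j =>
      rw [List.getD_cons_succ]
      apply ih
      have : ((K a b c).toNat + 2 * colMask K a b cs).testBit (j + 1)
          = (((K a b c).toNat + 2 * colMask K a b cs) / 2).testBit j := by
        rw [Nat.testBit_succ]
      rw [this] at h
      have h2 : ((K a b c).toNat + 2 * colMask K a b cs) / 2 = colMask K a b cs := by
        have : (K a b c).toNat < 2 := by cases K a b c <;> simp
        omega
      rwa [h2] at h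

/-- The mask table of a column. -/
def mkT (L : ℕ) (K : ℕ → ℕ → ℕ → Bool) (col : List ℕ) : List (List ℕ) :=
  (List.range L).map fun a => (List.range L).map fun b => colMask K a b col

/-- The tables of all the columns. -/
def mkTs (L : ℕ) : List Coord → List (List ℕ) → List (List (List ℕ))
  | [], _ => []
  | c :: cs, ws => mkT L c.K (ws.map fun w => w.headD 0) :: mkTs L cs (ws.map List.tail)

/-- The mask of a pair of words. -/
def orT : List (List (List ℕ)) → List ℕ → List ℕ → ℕ
  | [], _, _ => 0
  | T :: Ts, u, v => ((T.getD (u.headD 0) []).getD (v.headD 0) 0) ||| orT Ts u.tail v.tail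

theorem testBit_mkT (L : ℕ) (K : ℕ → ℕ → ℕ → Bool) (col : List ℕ) (a b j : ℕ)
    (h : (((mkT L K col).getD a []).getD b 0).testBit j = true) :
    K a b (col.getD j 0) = true := by
  by_cases ha : a < L
  · by_cases hb : b < L
    · have : ((mkT L K col).getD a []).getD b 0 = colMask K a b col := by
        simp [mkT, List.getD_eq_getElem?_getD, ha, hb]
      rw [this] at h
      exact testBit_colMask K a b col j h
    · have : ((mkT L K col).getD a []).getD b 0 = 0 := by
        simp [mkT, List.getD_eq_getElem?_getD, ha, hb]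
      rw [this] at h
      simp at h
  · have : ((mkT L K col).getD a []).getD b 0 = 0 := by
      simp [mkT, List.getD_eq_getElem?_getD, ha]
    rw [this] at h
    simp at h

theorem getD_map_headD (ws : List (List ℕ)) (j : ℕ) :
    (ws.map fun w => w.headD 0).getD j 0 = (ws.getD j []).headD 0 := by
  induction ws generalizing j with
  | nil => simp
  | cons w ws ih =>
    cases j with
    | zero => simp
    | succ j => simpa using ih j

theorem getD_map_tail (ws : List (List ℕ)) (j : ℕ) :
    (ws.map List.tail).getD j [] = (ws.getD j []).tail := by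
  induction ws generalizing j with
  | nil => simp
  | cons w ws ih =>
    cases j with
    | zero => simp
    | succ j => simpa using ih j

theorem testBit_orT (L : ℕ) (cs : List Coord) (ws : List (List ℕ)) (u v : List ℕ) (j : ℕ)
    (h : (orT (mkTs L cs ws) u v).testBit j = true) : KW cs u v (ws.getD j []) = true := by
  induction cs generalizing ws u v with
  | nil => simp [mkTs, orT] at h
  | cons c cs ih =>
    rw [mkTs, orT, Nat.testBit_or] at h
    rw [KW]
    rcases Bool.or_eq_true_iff.1 h with h | h
    · have := testBit_mkT L c.K _ _ _ j h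
      rw [getD_map_headD] at this
      rw [this]
      rfl
    · have := ih _ _ _ h
      rw [getD_map_tail] at this
      rw [this]
      simp

/-- Check of the diagonal conditions: `ws` is the rest of the list from index `i` on. -/
def chkD (Ts : List (List (List ℕ))) (f : ℕ) (u : List ℕ) (i : ℕ) : ℕ → List (List ℕ) → Bool
  | _, [] => true
  | j, v :: vs => (if Nat.beq i j then Nat.beq (orT Ts u v ||| 2 ^ i) f else Nat.beq (orT Ts u v) f)
      && chkD Ts f u i (j + 1) vs

theorem chkD_spec {Ts : List (List (List ℕ))} {f : ℕ} {u : List ℕ} {i j0 : ℕ}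
    {vs : List (List ℕ)} (h : chkD Ts f u i j0 vs = true) (j : ℕ) (hj : j < vs.length) :
    (i = j0 + j ∧ orT Ts u (vs.getD j []) ||| 2 ^ i = f) ∨
      (i ≠ j0 + j ∧ orT Ts u (vs.getD j []) = f) := by
  induction vs generalizing j0 j with
  | nil => simp at hj
  | cons v vs ih =>
    rw [chkD, Bool.and_eq_true] at h
    obtain ⟨h1, h2⟩ := h
    cases j with
    | zero =>
      by_cases hij : i = j0
      · left
        refine ⟨by omega, ?_⟩
        have : Nat.beq i j0 = true := by rw [hij]; exact Nat.beq_refl j0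
        rw [this] at h1
        simp only [if_true] at h1
        rw [List.getD_cons_zero]
        exact Nat.eq_of_beq_eq_true h1
      · right
        refine ⟨by omega, ?_⟩
        have : Nat.beq i j0 = false := by
          rw [Bool.eq_false_iff]
          intro hh
          exact hij (Nat.eq_of_beq_eq_true hh)
        rw [this] at h1
        rw [List.getD_cons_zero]
        exact Nat.eq_of_beq_eq_true (by simpa using h1)
    | succ j =>
      have := ih h2 j (by simpa using hj)
      rw [List.getD_cons_succ]
      rcases this with ⟨e, h3⟩ | ⟨e, h3⟩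
      · left
        exact ⟨by omega, h3⟩
      · right
        exact ⟨by omega, h3⟩

/-- Check of one class. -/
def chkC (Ts : List (List (List ℕ))) (f : ℕ) (ws : List (List ℕ)) : ℕ → List (List ℕ) → Bool
  | _, [] => true
  | i, u :: us => chkD Ts f u i 0 ws && chkC Ts f ws (i + 1) us

theorem chkC_spec {Ts : List (List (List ℕ))} {f : ℕ} {ws us : List (List ℕ)} {i0 : ℕ}
    (h : chkC Ts f ws i0 us = true) (i : ℕ) (hi : i < us.length) :
    chkD Ts f (us.getD i []) (i0 + i) 0 ws = true := by
  induction us generalizing i0 i with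
  | nil => simp at hi
  | cons u us ih =>
    rw [chkC, Bool.and_eq_true] at h
    cases i with
    | zero => simpa using h.1
    | succ i =>
      have := ih h.2 i (by simpa using hi)
      rw [List.getD_cons_succ]
      rwa [show i0 + (i + 1) = i0 + 1 + i by omega]

theorem class_ok (L : ℕ) (cs : List Coord) (ws : List (List ℕ))
    (h : chkC (mkTs L cs ws) (2 ^ ws.length - 1) ws 0 ws = true) :
    ∀ i < ws.length, ∀ j < ws.length, ∀ k < ws.length, ¬ (i = j ∧ j = k) →
      KW cs (ws.getD i []) (ws.getD j []) (ws.getD k []) = true := by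
  intro i hi j hj k hk hne
  have h1 := chkC_spec h i hi
  rw [Nat.zero_add] at h1
  have h2 := chkD_spec h1 j hj
  rw [Nat.zero_add] at h2
  apply testBit_orT L
  rcases h2 with ⟨e, h3⟩ | ⟨e, h3⟩
  · have hik : i ≠ k := by
      intro hh
      apply hne
      omega
    have h4 : (orT (mkTs L cs ws) (ws.getD i []) (ws.getD j []) ||| 2 ^ i).testBit k = true := by
      rw [h3, Nat.testBit_two_pow_sub_one]
      simpa using hk
    rw [Nat.testBit_or, Nat.testBit_two_pow_of_ne hik] at h4
    simpa using h4
  · rw [h3, Nat.testBit_two_pow_sub_one]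
    simpa using hk

/-- Check of one cross condition. -/
def chkX (Ts : List (List (List ℕ))) (f : ℕ) (us vs : List (List ℕ)) : Bool :=
  us.all fun u => vs.all fun v => Nat.beq (orT Ts u v) f

theorem cross_ok (L : ℕ) (cs : List Coord) (us vs ws : List (List ℕ))
    (h : chkX (mkTs L cs ws) (2 ^ ws.length - 1) us vs = true) :
    ∀ i < us.length, ∀ j < vs.length, ∀ k < ws.length,
      KW cs (us.getD i []) (vs.getD j []) (ws.getD k []) = true := by
  intro i hi j hj k hk
  rw [chkX, List.all_eq_true] at h
  have h1 := h (us.getD i []) (by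
    rw [List.getD_eq_getElem _ _ hi]
    exact List.getElem_mem hi)
  rw [List.all_eq_true] at h1
  have h2 := h1 (vs.getD j []) (by
    rw [List.getD_eq_getElem _ _ hj]
    exact List.getElem_mem hj)
  apply testBit_orT L
  rw [Nat.eq_of_beq_eq_true h2, Nat.testBit_two_pow_sub_one]
  simpa using hk

/-- Check of all the cross conditions of a table `K'`. -/
def chkK (L : ℕ) (cs : List Coord) (Fs : List (List (List ℕ))) (K' : ℕ → ℕ → ℕ → Bool) : Bool :=
  (List.range Fs.length).all fun c =>
    (List.range Fs.length).all fun a => (List.range Fs.length).all fun b =>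
      !K' a b c || chkX (mkTs L cs (Fs.getD c [])) (2 ^ (Fs.getD c []).length - 1)
        (Fs.getD a []) (Fs.getD b [])

/-- Check of all the classes. -/
def chkF (L : ℕ) (cs : List Coord) (Fs : List (List (List ℕ))) : Bool :=
  Fs.all fun ws => chkC (mkTs L cs ws) (2 ^ ws.length - 1) ws 0 ws

theorem stage (L : ℕ) (cs : List Coord) (h : ∀ c ∈ cs, c.Ok) (Fs : List (List (List ℕ)))
    (K' : ℕ → ℕ → ℕ → Bool) (h1 : chkF L cs Fs = true) (h2 : chkK L cs Fs K' = true) :
    LS ℕ K' (DW cs) (fun a => ((Fs.getD a []).map (SW cs)).sum) := by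
  have h3 := LS.union (words_LS cs h) K' (fun a => (Fs.getD a []).length)
    (fun a i => (Fs.getD a []).getD i []) ?_ ?_
  · refine LS.congr h3 rfl ?_
    intro a
    generalize Fs.getD a [] = ws
    rw [Finset.sum_range]
    induction ws with
    | nil => simp
    | cons w ws ih =>
      simp only [List.length_cons, List.map_cons, List.sum_cons]
      rw [Fin.sum_univ_succ]
      simp only [Fin.val_zero, List.getD_cons_zero, Fin.val_succ, List.getD_cons_succ]
      rw [ih]
  · intro a
    by_cases ha : a < Fs.length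
    · apply class_ok L
      rw [chkF, List.all_eq_true] at h1
      apply h1
      rw [List.getD_eq_getElem _ _ ha]
      exact List.getElem_mem ha
    · have : Fs.getD a [] = [] := by
        simp [List.getD_eq_getElem?_getD, ha]
      intro i hi
      rw [this] at hi
      simp at hi
  · intro a b c hk i hi j hj k hk'
    have ha : a < Fs.length := by
      by_contra ha
      have : Fs.getD a [] = [] := by
        simp [List.getD_eq_getElem?_getD, ha]
      rw [this] at hi
      simp at hi
    have hb : b < Fs.length := by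
      by_contra ha
      have : Fs.getD b [] = [] := by
        simp [List.getD_eq_getElem?_getD, ha]
      rw [this] at hj
      simp at hj
    have hc : c < Fs.length := by
      by_contra ha
      have : Fs.getD c [] = [] := by
        simp [List.getD_eq_getElem?_getD, ha]
      rw [this] at hk'
      simp at hk'
    refine cross_ok L cs _ _ _ ?_ i hi j hj k hk'
    rw [chkK, List.all_eq_true] at h2
    have h4 := h2 c (List.mem_range.2 hc)
    rw [List.all_eq_true] at h4
    have h5 := h4 a (List.mem_range.2 ha)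
    rw [List.all_eq_true] at h5
    have h6 := h5 b (List.mem_range.2 hb)
    rw [hk] at h6
    simpa using h6

end Pool.Agent.Helper49.CapSet
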