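import Pool.Agent.Helper49.CapSet.Final

/-!
Explicit stages of the construction.
-/

namespace Pool.Agent.Helper49.CapSet

/-- table of the three letter systems -/
def t3 : ℕ := 2919150

/-- table of the seven letter systems -/
def t7 : ℕ := 8923845717853517744943844506710270750884422757094501335465735842281053779926281960138946852706917924352

def baseF : List (List (List ℕ)) :=
  [[[1, 0, 0, 0, 0, 0], [2, 0, 0, 0, 0, 0], [0, 1, 0, 0, 0, 0], [0, 2, 0, 0, 0, 0], [0, 0, 1, 0, 0,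
  0], [0, 0, 2, 0, 0, 0], [0, 0, 0, 1, 0, 0], [0, 0, 0, 2, 0, 0], [0, 0, 0, 0, 1, 0], [0, 0, 0,
  0, 2, 0], [0, 0, 0, 0, 0, 1], [0, 0, 0, 0, 0, 2]], [[1, 1, 1, 0, 0, 0], [1, 1, 2, 0, 0, 0], [1,
  2, 1, 0, 0, 0], [1, 2, 2, 0, 0, 0], [2, 1, 1, 0, 0, 0], [2, 1, 2, 0, 0, 0], [2, 2, 1, 0, 0, 0],
  [2, 2, 2, 0, 0, 0], [1, 1, 0, 1, 0, 0], [1, 1, 0, 2, 0, 0], [1, 2, 0, 1, 0, 0], [1, 2, 0, 2, 0,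
  0], [2, 1, 0, 1, 0, 0], [2, 1, 0, 2, 0, 0], [2, 2, 0, 1, 0, 0], [2, 2, 0, 2, 0, 0], [1, 0, 1,
  0, 1, 0], [1, 0, 1, 0, 2, 0], [1, 0, 2, 0, 1, 0], [1, 0, 2, 0, 2, 0], [2, 0, 1, 0, 1, 0], [2,
  0, 1, 0, 2, 0], [2, 0, 2, 0, 1, 0], [2, 0, 2, 0, 2, 0], [1, 0, 0, 1, 0, 1], [1, 0, 0, 1, 0, 2],
  [1, 0, 0, 2, 0, 1], [1, 0, 0, 2, 0, 2], [2, 0, 0, 1, 0, 1], [2, 0, 0, 1, 0, 2], [2, 0, 0, 2, 0,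
  1], [2, 0, 0, 2, 0, 2], [1, 0, 0, 0, 1, 1], [1, 0, 0, 0, 1, 2], [1, 0, 0, 0, 2, 1], [1, 0, 0,
  0, 2, 2], [2, 0, 0, 0, 1, 1], [2, 0, 0, 0, 1, 2], [2, 0, 0, 0, 2, 1], [2, 0, 0, 0, 2, 2], [0,
  1, 1, 0, 0, 1], [0, 1, 1, 0, 0, 2], [0, 1, 2, 0, 0, 1], [0, 1, 2, 0, 0, 2], [0, 2, 1, 0, 0, 1],
  [0, 2, 1, 0, 0, 2], [0, 2, 2, 0, 0, 1], [0, 2, 2, 0, 0, 2], [0, 1, 0, 1, 1, 0], [0, 1, 0, 1, 2,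
  0], [0, 1, 0, 2, 1, 0], [0, 1, 0, 2, 2, 0], [0, 2, 0, 1, 1, 0], [0, 2, 0, 1, 2, 0], [0, 2, 0,
  2, 1, 0], [0, 2, 0, 2, 2, 0], [0, 1, 0, 0, 1, 1], [0, 1, 0, 0, 1, 2], [0, 1, 0, 0, 2, 1], [0,
  1, 0, 0, 2, 2], [0, 2, 0, 0, 1, 1], [0, 2, 0, 0, 1, 2], [0, 2, 0, 0, 2, 1], [0, 2, 0, 0, 2, 2],
  [0, 0, 1, 1, 1, 0], [0, 0, 1, 1, 2, 0], [0, 0, 1, 2, 1, 0], [0, 0, 1, 2, 2, 0], [0, 0, 2, 1, 1,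
  0], [0, 0, 2, 1, 2, 0], [0, 0, 2, 2, 1, 0], [0, 0, 2, 2, 2, 0], [0, 0, 1, 1, 0, 1], [0, 0, 1,
  1, 0, 2], [0, 0, 1, 2, 0, 1], [0, 0, 1, 2, 0, 2], [0, 0, 2, 1, 0, 1], [0, 0, 2, 1, 0, 2], [0,
  0, 2, 2, 0, 1], [0, 0, 2, 2, 0, 2], [1, 1, 1, 1, 1, 1], [1, 1, 1, 1, 2, 2], [1, 1, 1, 2, 1, 2],
  [1, 1, 1, 2, 2, 1], [1, 1, 2, 1, 1, 2], [1, 1, 2, 1, 2, 1], [1, 1, 2, 2, 1, 1], [1, 1, 2, 2, 2,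
  2], [1, 2, 1, 1, 1, 2], [1, 2, 1, 1, 2, 1], [1, 2, 1, 2, 1, 1], [1, 2, 1, 2, 2, 2], [1, 2, 2,
  1, 1, 1], [1, 2, 2, 1, 2, 2], [1, 2, 2, 2, 1, 2], [1, 2, 2, 2, 2, 1], [2, 1, 1, 1, 1, 2], [2,
  1, 1, 1, 2, 1], [2, 1, 1, 2, 1, 1], [2, 1, 1, 2, 2, 2], [2, 1, 2, 1, 1, 1], [2, 1, 2, 1, 2, 2],
  [2, 1, 2, 2, 1, 2], [2, 1, 2, 2, 2, 1], [2, 2, 1, 1, 1, 1], [2, 2, 1, 1, 2, 2], [2, 2, 1, 2, 1,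
  2], [2, 2, 1, 2, 2, 1], [2, 2, 2, 1, 1, 2], [2, 2, 2, 1, 2, 1], [2, 2, 2, 2, 1, 1], [2, 2, 2,
  2, 2, 2]], [[1, 1, 0, 0, 1, 0], [1, 1, 0, 0, 2, 0], [1, 2, 0, 0, 1, 0], [1, 2, 0, 0, 2, 0], [2,
  1, 0, 0, 1, 0], [2, 1, 0, 0, 2, 0], [2, 2, 0, 0, 1, 0], [2, 2, 0, 0, 2, 0], [1, 1, 0, 0, 0, 1],
  [1, 1, 0, 0, 0, 2], [1, 2, 0, 0, 0, 1], [1, 2, 0, 0, 0, 2], [2, 1, 0, 0, 0, 1], [2, 1, 0, 0, 0,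
  2], [2, 2, 0, 0, 0, 1], [2, 2, 0, 0, 0, 2], [1, 0, 1, 1, 0, 0], [1, 0, 1, 2, 0, 0], [1, 0, 2,
  1, 0, 0], [1, 0, 2, 2, 0, 0], [2, 0, 1, 1, 0, 0], [2, 0, 1, 2, 0, 0], [2, 0, 2, 1, 0, 0], [2,
  0, 2, 2, 0, 0], [1, 0, 1, 0, 0, 1], [1, 0, 1, 0, 0, 2], [1, 0, 2, 0, 0, 1], [1, 0, 2, 0, 0, 2],
  [2, 0, 1, 0, 0, 1], [2, 0, 1, 0, 0, 2], [2, 0, 2, 0, 0, 1], [2, 0, 2, 0, 0, 2], [1, 0, 0, 1, 1,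
  0], [1, 0, 0, 1, 2, 0], [1, 0, 0, 2, 1, 0], [1, 0, 0, 2, 2, 0], [2, 0, 0, 1, 1, 0], [2, 0, 0,
  1, 2, 0], [2, 0, 0, 2, 1, 0], [2, 0, 0, 2, 2, 0], [0, 1, 1, 1, 0, 0], [0, 1, 1, 2, 0, 0], [0,
  1, 2, 1, 0, 0], [0, 1, 2, 2, 0, 0], [0, 2, 1, 1, 0, 0], [0, 2, 1, 2, 0, 0], [0, 2, 2, 1, 0, 0],
  [0, 2, 2, 2, 0, 0], [0, 1, 1, 0, 1, 0], [0, 1, 1, 0, 2, 0], [0, 1, 2, 0, 1, 0], [0, 1, 2, 0, 2,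
  0], [0, 2, 1, 0, 1, 0], [0, 2, 1, 0, 2, 0], [0, 2, 2, 0, 1, 0], [0, 2, 2, 0, 2, 0], [0, 1, 0,
  1, 0, 1], [0, 1, 0, 1, 0, 2], [0, 1, 0, 2, 0, 1], [0, 1, 0, 2, 0, 2], [0, 2, 0, 1, 0, 1], [0,
  2, 0, 1, 0, 2], [0, 2, 0, 2, 0, 1], [0, 2, 0, 2, 0, 2], [0, 0, 1, 0, 1, 1], [0, 0, 1, 0, 1, 2],
  [0, 0, 1, 0, 2, 1], [0, 0, 1, 0, 2, 2], [0, 0, 2, 0, 1, 1], [0, 0, 2, 0, 1, 2], [0, 0, 2, 0, 2,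
  1], [0, 0, 2, 0, 2, 2], [0, 0, 0, 1, 1, 1], [0, 0, 0, 1, 1, 2], [0, 0, 0, 1, 2, 1], [0, 0, 0,
  1, 2, 2], [0, 0, 0, 2, 1, 1], [0, 0, 0, 2, 1, 2], [0, 0, 0, 2, 2, 1], [0, 0, 0, 2, 2, 2], [1,
  1, 1, 1, 1, 1], [1, 1, 1, 1, 2, 2], [1, 1, 1, 2, 1, 2], [1, 1, 1, 2, 2, 1], [1, 1, 2, 1, 1, 2],
  [1, 1, 2, 1, 2, 1], [1, 1, 2, 2, 1, 1], [1, 1, 2, 2, 2, 2], [1, 2, 1, 1, 1, 2], [1, 2, 1, 1, 2,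
  1], [1, 2, 1, 2, 1, 1], [1, 2, 1, 2, 2, 2], [1, 2, 2, 1, 1, 1], [1, 2, 2, 1, 2, 2], [1, 2, 2,
  2, 1, 2], [1, 2, 2, 2, 2, 1], [2, 1, 1, 1, 1, 2], [2, 1, 1, 1, 2, 1], [2, 1, 1, 2, 1, 1], [2,
  1, 1, 2, 2, 2], [2, 1, 2, 1, 1, 1], [2, 1, 2, 1, 2, 2], [2, 1, 2, 2, 1, 2], [2, 1, 2, 2, 2, 1],
  [2, 2, 1, 1, 1, 1], [2, 2, 1, 1, 2, 2], [2, 2, 1, 2, 1, 2], [2, 2, 1, 2, 2, 1], [2, 2, 2, 1, 1,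
  2], [2, 2, 2, 1, 2, 1], [2, 2, 2, 2, 1, 1], [2, 2, 2, 2, 2, 2]]]

/-- the base system in dimension six -/
def base : Coord := mkC 3 t3 6 [12, 112, 112]

theorem base_ok : base.Ok :=
  stage' 3 [triv, triv, triv, triv, triv, triv] (okCons triv_ok (okCons triv_ok (okCons triv_ok (okCons triv_ok (okCons triv_ok (okCons triv_ok okNil)))))) baseF 3 t3 6 _
    (by decide +kernel)

def tourF3 : List (List (List ℕ)) :=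
  [[[0, 1, 1], [2, 0, 1], [2, 2, 0]], [[1, 1, 1]], [[2, 2, 2]]]

def tour3 : Coord := mkC 3 t3 18 [451584, 1404928, 1404928]

theorem tour3_ok : tour3.Ok :=
  stage' 3 [base, base, base] (okCons base_ok (okCons base_ok (okCons base_ok okNil))) tourF3 3 t3 18 _
    (by decide +kernel)

def tourF4 : List (List (List ℕ)) :=
  [[[0, 1, 1, 1], [2, 0, 1, 1], [2, 2, 0, 1], [2, 2, 2, 0]], [[1, 1, 1, 1]], [[2, 2, 2, 2]]]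

def tour4 : Coord := mkC 3 t3 24 [67436544, 157351936, 157351936]

theorem tour4_ok : tour4.Ok :=
  stage' 3 [base, base, base, base] (okCons base_ok (okCons base_ok (okCons base_ok (okCons base_ok okNil)))) tourF4 3 t3 24 _
    (by decide +kernel)

def tourF5 : List (List (List ℕ)) :=
  [[[0, 1, 1, 1, 1], [2, 0, 1, 1, 1], [2, 2, 0, 1, 1], [2, 2, 2, 0, 1], [2, 2, 2, 2, 0]], [[1, 1,
  1, 1, 1]], [[2, 2, 2, 2, 2]]]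

def tour5 : Coord := mkC 3 t3 30 [9441116160, 17623416832, 17623416832]

theorem tour5_ok : tour5.Ok :=
  stage' 3 [base, base, base, base, base] (okCons base_ok (okCons base_ok (okCons base_ok (okCons base_ok (okCons base_ok okNil))))) tourF5 3 t3 30 _
    (by decide +kernel)

def blockF : List (List (List ℕ)) :=
  [[[1, 1, 1]], [[2, 2, 2]], [[0, 1, 2], [1, 2, 0], [2, 0, 1]], [[0, 2, 1], [1, 0, 2], [2, 1, 0]],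
  [[0, 0, 1], [0, 1, 0], [1, 0, 0]], [[0, 0, 2], [0, 2, 0], [2, 0, 0]], [[0, 0, 0]]]

def blk4 : Coord := mkC 7 t7 72
  [3895975992546975973113856, 3895975992546975973113856, 5009111990417540536860672,
  5009111990417540536860672, 2146762281607517372940288, 2146762281607517372940288,
  306680325943931053277184]

theorem blk4_ok : blk4.Ok :=
  stage' 3 [tour4, tour4, tour4] (okCons tour4_ok (okCons tour4_ok (okCons tour4_ok okNil))) blockF 7 t7 72 _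
    (by decide +kernel)

def extF1 : List (List (List ℕ)) :=
  [[[1, 3, 3, 4], [1, 2, 4, 2], [1, 4, 3, 2], [2, 1, 2, 4], [3, 1, 4, 3], [2, 3, 1, 4], [2, 2, 2,
  2], [3, 2, 4, 1], [2, 4, 1, 2], [3, 4, 3, 1], [4, 1, 2, 3], [4, 3, 1, 3], [4, 2, 2, 1]], [[0,
  0, 2, 4], [1, 0, 4, 2], [0, 3, 1, 4], [1, 3, 3, 3], [1, 2, 4, 0], [0, 4, 1, 2], [1, 4, 3, 0],
  [2, 1, 0, 4], [3, 1, 3, 3], [3, 0, 4, 1], [3, 3, 1, 3], [3, 3, 3, 1], [2, 4, 1, 0], [4, 1, 0,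
  3], [4, 0, 2, 1], [4, 2, 0, 0]], [[0, 1, 4, 2], [1, 3, 0, 4], [0, 2, 2, 2], [0, 2, 4, 1], [1,
  4, 0, 2], [0, 4, 3, 1], [2, 0, 1, 4], [2, 0, 2, 2], [3, 1, 4, 0], [2, 2, 0, 2], [2, 2, 2, 0],
  [2, 4, 0, 1], [4, 0, 1, 3], [4, 1, 2, 0]]]

def sys1 : Coord := mkC 3 t3 288
  
  [3147842323010717513431664912367302409048878227461081844660714701240467518392334060386662082706145280,
  3917314890857781794492738557612642997927492905284901851133333850432581800666015719592290591812091904,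
  3590871983286299978285010344478256081433535163177826696872222696229866650610514409626266375827750912]

theorem sys1_ok : sys1.Ok :=
  stage' 7 [blk4, blk4, blk4, blk4] (okCons blk4_ok (okCons blk4_ok (okCons blk4_ok (okCons blk4_ok okNil)))) extF1 3 t3 288 _
    (by decide +kernel)

end Pool.Agent.Helper49.CapSet
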