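import Pool.Agent.Helper49.CapSet.D2

/-!
Explicit stages of the construction.
-/

namespace Pool.Agent.Helper49.CapSet

def termF : List (List (List ℕ)) :=
  [[[1, 0, 4, 4, 4, 4], [1, 2, 2, 4, 4, 4], [0, 2, 4, 2, 4, 4], [0, 2, 4, 4, 3, 4], [0, 3, 4, 4, 4,
  2], [0, 4, 1, 4, 4, 4], [1, 4, 2, 3, 4, 4], [1, 4, 2, 4, 2, 4], [1, 4, 3, 4, 4, 3], [1, 4, 4,
  0, 4, 4], [0, 4, 4, 2, 2, 4], [0, 4, 4, 2, 4, 3], [0, 4, 4, 4, 0, 4], [1, 4, 4, 4, 2, 2], [0,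
  4, 4, 4, 4, 0], [3, 0, 3, 4, 4, 4], [2, 1, 4, 2, 4, 4], [2, 1, 4, 4, 3, 4], [2, 1, 4, 4, 4, 2],
  [2, 2, 0, 4, 4, 4], [3, 3, 3, 2, 4, 4], [3, 2, 3, 4, 3, 4], [3, 3, 3, 4, 4, 2], [3, 3, 4, 1, 4,
  4], [3, 2, 4, 3, 3, 4], [3, 3, 4, 3, 4, 3], [2, 3, 4, 4, 1, 4], [3, 3, 4, 4, 2, 3], [2, 2, 4,
  4, 4, 0], [2, 4, 0, 3, 4, 4], [2, 4, 1, 4, 2, 4], [2, 4, 1, 4, 4, 3], [2, 4, 2, 1, 4, 4], [2,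
  4, 2, 2, 2, 4], [2, 4, 2, 3, 4, 2], [3, 4, 2, 4, 0, 4], [3, 4, 3, 4, 3, 2], [3, 4, 3, 4, 4, 1],
  [3, 4, 4, 1, 3, 4], [3, 4, 4, 0, 4, 2], [2, 4, 4, 2, 1, 4], [2, 4, 4, 2, 3, 2], [3, 4, 4, 3, 4,
  0], [2, 4, 4, 4, 0, 3], [3, 4, 4, 4, 2, 0], [4, 0, 1, 4, 4, 4], [4, 1, 3, 3, 4, 4], [4, 0, 3,
  4, 2, 4], [4, 1, 3, 4, 4, 3], [4, 1, 4, 1, 4, 4], [4, 0, 4, 2, 2, 4], [4, 0, 4, 3, 4, 2], [4,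
  0, 4, 4, 0, 4], [4, 1, 4, 4, 2, 2], [4, 1, 4, 4, 4, 1], [4, 3, 0, 3, 4, 4], [4, 3, 0, 4, 2, 4],
  [4, 3, 0, 4, 4, 3], [4, 2, 3, 0, 4, 4], [4, 2, 2, 2, 2, 4], [4, 3, 2, 3, 4, 2], [4, 3, 2, 4, 1,
  4], [4, 3, 2, 4, 2, 2], [4, 2, 3, 4, 4, 0], [4, 3, 4, 1, 2, 4], [4, 2, 4, 0, 4, 2], [4, 3, 4,
  3, 0, 4], [4, 3, 4, 3, 3, 2], [4, 2, 4, 2, 4, 1], [4, 2, 4, 4, 1, 3], [4, 2, 4, 4, 2, 0], [4,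
  4, 1, 1, 4, 4], [4, 4, 0, 2, 3, 4], [4, 4, 0, 2, 4, 3], [4, 4, 1, 4, 1, 4], [4, 4, 1, 4, 3, 2],
  [4, 4, 1, 4, 4, 1], [4, 4, 3, 1, 3, 4], [4, 4, 2, 0, 4, 2], [4, 4, 3, 3, 0, 4], [4, 4, 2, 2, 2,
  3], [4, 4, 2, 2, 4, 1], [4, 4, 2, 4, 1, 3], [4, 4, 2, 4, 2, 0], [4, 4, 4, 0, 0, 4], [4, 4, 4,
  1, 3, 3], [4, 4, 4, 1, 4, 0], [4, 4, 4, 3, 1, 3], [4, 4, 4, 3, 3, 1], [4, 4, 4, 4, 0, 1]]]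

/-- the size of the last cap -/
def capN : ℕ := ((termF.getD 0 []).map (SW [blk3, blk3, blk3, blk3, blk3, blk3])).sum

theorem last_LS : LS Unit K0 57024 (fun _ => capN) := by
  have h := stage 7 [blk3, blk3, blk3, blk3, blk3, blk3]
    (okCons blk3_ok (okCons blk3_ok (okCons blk3_ok (okCons blk3_ok (okCons blk3_ok (okCons blk3_ok okNil)))))) termF (fun _ _ _ => false)
    (by decide +kernel) (by decide +kernel)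
  exact unit_LS (LS.congr h (by decide +kernel) (fun _ => rfl))

theorem capN_ge : 222082 ^ 57024 ≤ capN * 100000 ^ 57024 := by
  decide +kernel

end Pool.Agent.Helper49.CapSet
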