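import Mathlib
import Pool.Agent.Helper49.CapSet.Basic

/-!
Stages with explicit data, and the passage to all large dimensions.
-/

namespace Pool.Agent.Helper49.CapSet

/-- Table of kills coded in a number. -/
def KT (L T a b c : ℕ) : Bool := T.testBit ((a * L + b) * L + c)

/-- Coordinate with a coded table and a list of sizes. -/
def mkC (L T d : ℕ) (S : List ℕ) : Coord := ⟨KT L T, d, fun a => S.getD a 0⟩

/-- All the checks of a stage. -/
def chkS (L : ℕ) (cs : List Coord) (Fs : List (List (List ℕ))) (L' T' d' : ℕ) (S : List ℕ) :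
    Bool :=
  chkF L cs Fs && chkK L cs Fs (KT L' T') && Nat.beq (DW cs) d' &&
    decide (Fs.map (fun ws => (ws.map (SW cs)).sum) = S)

theorem getD_map_nil (f : List (List ℕ) → ℕ) (hf : f [] = 0) (Fs : List (List (List ℕ))) (a : ℕ) :
    (Fs.map f).getD a 0 = f (Fs.getD a []) := by
  induction Fs generalizing a with
  | nil => simp [hf]
  | cons x xs ih =>
    cases a with
    | zero => simp
    | succ a => simpa using ih a

theorem stage' (L : ℕ) (cs : List Coord) (h : ∀ c ∈ cs, c.Ok) (Fs : List (List (List ℕ)))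
    (L' T' d' : ℕ) (S : List ℕ) (hc : chkS L cs Fs L' T' d' S = true) :
    (mkC L' T' d' S).Ok := by
  rw [chkS, Bool.and_eq_true, Bool.and_eq_true, Bool.and_eq_true] at hc
  obtain ⟨⟨⟨h1, h2⟩, h3⟩, h4⟩ := hc
  refine LS.congr (stage L cs h Fs (KT L' T') h1 h2) (Nat.eq_of_beq_eq_true h3) ?_
  intro a
  have h5 := of_decide_eq_true h4
  change _ = S.getD a 0
  rw [← h5, getD_map_nil _ (by simp)]

theorem okNil : ∀ c ∈ ([] : List Coord), c.Ok := by
  intro c hc
  simp at hc

theorem okCons {c : Coord} {cs : List Coord} (h : c.Ok) (hs : ∀ c' ∈ cs, c'.Ok) :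
    ∀ c' ∈ c :: cs, c'.Ok := by
  intro c' hc'
  rcases List.mem_cons.1 hc' with rfl | h'
  · exact h
  · exact hs c' h'

/-- The trivial coordinate: singletons in dimension one. -/
def triv : Coord := ⟨fun a b c => !(Nat.beq ((a + b + c) % 3) 0), 1, fun _ => 1⟩

theorem triv_ok : triv.Ok := by
  refine ⟨fun a => {fun _ => (a : ZMod 3)}, ?_, ?_, ?_⟩
  · intro a x hx y hy z hz _
    rw [Finset.mem_singleton] at hx hy hz
    subst hx hy hz
    exact ⟨rfl, rfl⟩
  · intro a b c hk x hx y hy z hz hs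
    rw [Finset.mem_singleton] at hx hy hz
    subst hx hy hz
    have h0 : (a : ZMod 3) + b + c = 0 := congrFun hs (0 : Fin 1)
    have h1 : ((a + b + c : ℕ) : ZMod 3) = 0 := by
      push_cast
      exact h0
    rw [ZMod.natCast_eq_zero_iff] at h1
    have h2 : (a + b + c) % 3 = 0 := Nat.mod_eq_zero_of_dvd h1
    have h3 : triv.K a b c = false := by
      change (!(Nat.beq ((a + b + c) % 3) 0)) = false
      rw [h2]
      rfl
    rw [h3] at hk
    exact Bool.noConfusion hk
  · intro a
    exact Finset.card_singleton _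

/-- The kill table with no kills. -/
def K0 : Unit → Unit → Unit → Bool := fun _ _ _ => false

theorem unit_LS {K : ℕ → ℕ → ℕ → Bool} {d : ℕ} {sz : ℕ → ℕ} (h : LS ℕ K d sz) :
    LS Unit K0 d (fun _ => sz 0) := by
  obtain ⟨A, h1, h2, h3⟩ := h
  exact ⟨fun _ => A 0, fun _ => h1 0, fun a b c hk => by simp [K0] at hk, fun _ => h3 0⟩

theorem pow_LS {D N : ℕ} (h : LS Unit K0 D (fun _ => N)) (q s : ℕ) :
    LS Unit K0 (q * D + s) (fun _ => N ^ q) := by
  induction q with
  | zero =>
    refine ⟨fun _ => {0}, ?_, ?_, ?_⟩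
    · intro a x hx y hy z hz _
      rw [Finset.mem_singleton] at hx hy hz
      subst hx hy hz
      exact ⟨rfl, rfl⟩
    · intro a b c hk
      simp [K0] at hk
    · intro a
      simp
  | succ q ih =>
    have h3 := LS.prod h ih
    refine LS.congr ?_ (show D + (q * D + s) = (q + 1) * D + s by ring) (fun _ => ?_) (sz := fun _ => N * N ^ q)
    · obtain ⟨A, g1, g2, g3⟩ := h3
      exact ⟨A, g1, fun a b c hk => by simp [K0] at hk, g3⟩
    · ring

/-- From one large cap to all the dimensions. -/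
theorem all_dims {D N : ℕ} (hD : 0 < D) (h : LS Unit K0 D (fun _ => N)) (c c1 : ℝ) (hc0 : 1 ≤ c)
    (hc : c < c1) (hN : c1 ^ D ≤ (N : ℝ)) :
    ∃ R : ℕ, ∀ r ≥ R, ∃ A : Finset (Fin r → ZMod 3), Cap A ∧ c ^ r < (A.card : ℝ) := by
  have hq : 1 < c1 / c := by
    rw [one_lt_div (by linarith)]
    exact hc
  obtain ⟨R, hR⟩ := pow_unbounded_of_one_lt (c1 ^ D) hq
  refine ⟨R, fun r hr => ?_⟩
  obtain ⟨A, h1, h2, h3⟩ := pow_LS h (r / D) (r % D)
  have hdim : r / D * D + r % D = r := by
    rw [mul_comm]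
    exact Nat.div_add_mod r D
  have hpow : c1 ^ D < (c1 / c) ^ r := lt_of_lt_of_le hR (pow_le_pow_right₀ hq.le hr)
  have h4 : c ^ r < (N : ℝ) ^ (r / D) := by
    have h5 : c1 ^ r < c1 ^ D * (c1 ^ D) ^ (r / D) := by
      have hlt : r < D + D * (r / D) := by
        have := Nat.lt_div_mul_add hD (a := r)
        rw [mul_comm] at this
        omega
      rw [← pow_mul, ← pow_add]
      exact pow_lt_pow_right₀ (by linarith) hlt
    have hcr : 0 < c ^ r := by positivity
    have h6 : c ^ r * c1 ^ D < c1 ^ r := by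
      rw [div_pow, lt_div_iff₀ hcr] at hpow
      linarith
    have h7 : 0 < c1 ^ D := by
      have : 0 < c1 := by linarith
      positivity
    have h8 : c ^ r < (c1 ^ D) ^ (r / D) := by
      have : c ^ r * c1 ^ D < c1 ^ D * (c1 ^ D) ^ (r / D) := h6.trans h5
      rw [mul_comm] at this
      exact lt_of_mul_lt_mul_left this h7.le
    exact h8.trans_le (pow_le_pow_left₀ h7.le hN _)
  have key : ∀ m : ℕ, m = r → (∃ A : Finset (Fin m → ZMod 3), Cap A ∧ c ^ r < (A.card : ℝ)) →
      ∃ A : Finset (Fin r → ZMod 3), Cap A ∧ c ^ r < (A.card : ℝ) := by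
    rintro m rfl hh
    exact hh
  refine key _ hdim ⟨A (), h1 (), ?_⟩
  rw [h3 ()]
  push_cast
  exact h4

end Pool.Agent.Helper49.CapSet
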