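import Mathlib
import Pool.Agent.Helper49.CapSet.D3

/-!
Lower bound for cap sets: `τ_r > 2.2208 ^ r` for all large `r`.
-/

namespace Pool.Agent.Helper49.CapSet.LowerBound

/-- `A` is weakly zero-3-sum-free: no three pairwise distinct elements of `A` have sum `0`. -/
def WeaklyZeroThreeSumFree {r : ℕ} (A : Finset (Fin r → ZMod 3)) : Prop :=
  ∀ a ∈ A, ∀ b ∈ A, ∀ c ∈ A, a ≠ b → a ≠ c → b ≠ c → a + b + c ≠ 0

/-- `τ_r`, the largest size of a weakly zero-3-sum-free subset of `ℤ_3 ^ r`. -/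
noncomputable def tau (r : ℕ) : ℕ :=
  sSup {n : ℕ | ∃ A : Finset (Fin r → ZMod 3), WeaklyZeroThreeSumFree A ∧ A.card = n}

theorem le_tau {r : ℕ} {A : Finset (Fin r → ZMod 3)} (hA : WeaklyZeroThreeSumFree A) :
    A.card ≤ tau r := by
  apply le_csSup
  · refine ⟨Fintype.card (Fin r → ZMod 3), ?_⟩
    rintro n ⟨B, _, rfl⟩
    exact Finset.card_le_univ B
  · exact ⟨A, hA, rfl⟩

/-- For all large `r`, the largest cap set in `ℤ_3 ^ r` has more than `2.2208 ^ r` points. -/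
theorem result : ∃ R : ℕ, ∀ r : ℕ, R ≤ r → (2.2208 : ℝ) ^ r < (tau r : ℝ) := by
  have hN : ((222082 : ℝ) / 100000) ^ 57024 ≤ (Helper49.CapSet.capN : ℝ) := by
    rw [div_pow, div_le_iff₀ (by positivity)]
    exact_mod_cast Helper49.CapSet.capN_ge
  obtain ⟨R, hR⟩ := Helper49.CapSet.all_dims (by norm_num) Helper49.CapSet.last_LS 2.2208
    (222082 / 100000) (by norm_num) (by norm_num) hN
  refine ⟨R, fun r hr => ?_⟩
  obtain ⟨A, hA, hc⟩ := hR r hr
  refine hc.trans_le ?_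
  exact_mod_cast le_tau (A := A) (by
    intro a ha b hb c hc' hab _ _ hs
    exact hab (hA a ha b hb c hc' hs).1)

end Pool.Agent.Helper49.CapSet.LowerBound
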